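import Pool.Agent.H257R2.Tutte.Final

set_option autoImplicit false

namespace Pool.Agent.Results.MP_c21bd4_co.LimitingIntervals

open Pool.Agent.H257R2.Tutte Filter Topology

/-- Let `0 < q < 1` or `1 < q < 32/27`. The cubic `v³ - 2 q v - q² = 0` has a middle root `vp`, and
there are nondegenerate closed intervals `[l m, u m]` of negative numbers, self-dual, increasing,
with `l m → q / vp` and `u m → vp`, such that for `m ≥ 2` and every 2-connected weighted multigraph
with `n` vertices, at least `m` edges and all weights in `[l m, u m]`, the number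
`(-1) ^ (n + α) * Z(G; q, v)` is positive, where `α = 1` if `q < 1` and `α = 0` if `q > 1`. -/
theorem result (q : ℝ) (hq : (0 < q ∧ q < 1) ∨ (1 < q ∧ q < 32 / 27)) :
    (∃ vp, IsMiddleRoot q vp) ∧ ∀ vp, IsMiddleRoot q vp →
    ∃ l u : ℕ → ℝ,
      (∀ m, l m < u m ∧ u m < 0) ∧
      (∀ m, ∀ v ∈ Set.Icc (l m) (u m), q / v ∈ Set.Icc (l m) (u m)) ∧
      (∀ m, Set.Icc (l m) (u m) ⊆ Set.Icc (l (m + 1)) (u (m + 1))) ∧
      Tendsto l atTop (𝓝 (q / vp)) ∧ Tendsto u atTop (𝓝 vp) ∧
      ∀ m, 2 ≤ m → ∀ (V E : Type) [Fintype V] [Fintype E] (ends : E → Sym2 V) (v : E → ℝ),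
        TwoConnected ends → m ≤ Fintype.card E → (∀ e, v e ∈ Set.Icc (l m) (u m)) →
        0 < (-1) ^ (Fintype.card V + if q < 1 then 1 else 0) * tutteZ ends q v :=
  main_graph hq

end Pool.Agent.Results.MP_c21bd4_co.LimitingIntervals
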